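import Mathlib

/-! The group attached to a pair of square matrices over the prime field. -/

open Matrix

namespace Pool.Agent.Work.MP_7393fc_al.Wild

variable {p m : ℕ} [Fact p.Prime] (K : Type) [Field K] [Algebra (ZMod p) K]

/-- The biadditive map on five blocks of vectors of length `m` over `K`. -/
def beta (X Y : Matrix (Fin m) (Fin m) (ZMod p)) (u w : Fin 5 → Fin m → K) : K :=
  (u 0 ⬝ᵥ w 0 + u 1 ⬝ᵥ w 1 + u 2 ⬝ᵥ w 2 + u 3 ⬝ᵥ w 3 + u 4 ⬝ᵥ w 4) +
    (u 0 ⬝ᵥ w 1 + u 1 ⬝ᵥ w 2 + u 2 ⬝ᵥ w 3 + u 3 ⬝ᵥ w 4) ^ p +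
    ((Y.map (algebraMap (ZMod p) K) *ᵥ u 1) ⬝ᵥ w 2 + (X.map (algebraMap (ZMod p) K) *ᵥ u 2) ⬝ᵥ w 3 +
      u 3 ⬝ᵥ w 4) ^ p ^ 2

theorem beta_add_left (X Y : Matrix (Fin m) (Fin m) (ZMod p)) (u u' w : Fin 5 → Fin m → K) :
    beta K X Y (u + u') w = beta K X Y u w + beta K X Y u' w := by
  have := charP_of_injective_algebraMap (algebraMap (ZMod p) K).injective p
  simp only [beta, Pi.add_apply, mulVec_add, add_dotProduct, add_pow_char, add_pow_char_pow]
  ring

theorem beta_add_right (X Y : Matrix (Fin m) (Fin m) (ZMod p)) (u w w' : Fin 5 → Fin m → K) :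
    beta K X Y u (w + w') = beta K X Y u w + beta K X Y u w' := by
  have := charP_of_injective_algebraMap (algebraMap (ZMod p) K).injective p
  simp only [beta, Pi.add_apply, dotProduct_add, add_pow_char, add_pow_char_pow]
  ring

theorem beta_zero_left (X Y : Matrix (Fin m) (Fin m) (ZMod p)) (w : Fin 5 → Fin m → K) :
    beta K X Y 0 w = 0 := by
  simpa using beta_add_left K X Y 0 0 w

theorem beta_zero_right (X Y : Matrix (Fin m) (Fin m) (ZMod p)) (u : Fin 5 → Fin m → K) :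
    beta K X Y u 0 = 0 := by
  simpa using beta_add_right K X Y u 0 0

/-- Triples `(u, w, z)`. -/
@[ext]
structure Heis (X Y : Matrix (Fin m) (Fin m) (ZMod p)) where
  u : Fin 5 → Fin m → K
  w : Fin 5 → Fin m → K
  z : K

/-- The group law `(u, w, z) (u', w', z') = (u + u', w + w', z + z' + beta u w')`. -/
instance heisGroup (X Y : Matrix (Fin m) (Fin m) (ZMod p)) : Group (Heis K X Y) where
  mul a b := ⟨a.u + b.u, a.w + b.w, a.z + b.z + beta K X Y a.u b.w⟩
  one := ⟨0, 0, 0⟩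
  inv a := ⟨-a.u, -a.w, beta K X Y a.u a.w - a.z⟩
  mul_assoc a b c := Heis.ext (add_assoc _ _ _) (add_assoc _ _ _) (by
    show a.z + b.z + beta K X Y a.u b.w + c.z + beta K X Y (a.u + b.u) c.w =
      a.z + (b.z + c.z + beta K X Y b.u c.w) + beta K X Y a.u (b.w + c.w)
    rw [beta_add_left, beta_add_right]
    ring)
  one_mul a := Heis.ext (zero_add _) (zero_add _) (by
    show 0 + a.z + beta K X Y 0 a.w = a.z
    rw [beta_zero_left, zero_add, add_zero])
  mul_one a := Heis.ext (add_zero _) (add_zero _) (by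
    show a.z + 0 + beta K X Y a.u 0 = a.z
    rw [beta_zero_right, add_zero, add_zero])
  inv_mul_cancel a := Heis.ext (neg_add_cancel _) (neg_add_cancel _) (by
    show beta K X Y a.u a.w - a.z + a.z + beta K X Y (-a.u) a.w = 0
    rw [sub_add_cancel, ← beta_add_left, add_neg_cancel, beta_zero_left])

end Pool.Agent.Work.MP_7393fc_al.Wild
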