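import Pool.Agent.Work.MP_7393fc_al.Wild.Defs
import Mathlib

-- merged part: Pool.Agent.Work.MP_7393fc_al.Wild.Grp
section
/-! The groups `Heis K X Y` are semi-extraspecial. -/

open Matrix Subgroup
open scoped commutatorElement

namespace Pool.Agent.Work.MP_7393fc_al.Wild

variable {p m : ℕ} [Fact p.Prime] {K : Type} [Field K] [Algebra (ZMod p) K]
  {X Y : Matrix (Fin m) (Fin m) (ZMod p)}

theorem mul_u (a b : Heis K X Y) : (a * b).u = a.u + b.u := rfl

theorem mul_w (a b : Heis K X Y) : (a * b).w = a.w + b.w := rfl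

theorem mul_z (a b : Heis K X Y) : (a * b).z = a.z + b.z + beta K X Y a.u b.w := rfl

theorem one_eq : (1 : Heis K X Y) = ⟨0, 0, 0⟩ := rfl

theorem swap (a b : Heis K X Y) :
    a * b = ⟨0, 0, beta K X Y a.u b.w - beta K X Y b.u a.w⟩ * (b * a) := by
  refine Heis.ext ?_ ?_ ?_
  · simp only [mul_u, zero_add]
    exact add_comm _ _
  · simp only [mul_w, zero_add]
    exact add_comm _ _
  · simp only [mul_z, beta_zero_left]
    ring

theorem dot_onto {v : Fin m → K} (hv : v ≠ 0) (t : K) : ∃ v', v ⬝ᵥ v' = t := by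
  obtain ⟨i, hi⟩ := Function.ne_iff.1 hv
  exact ⟨Pi.single i ((v i)⁻¹ * t), by rw [dotProduct_single, mul_inv_cancel_left₀ hi]⟩

theorem onto_u {u : Fin 5 → Fin m → K} (hu : u ≠ 0) (t : K) : ∃ w, beta K X Y u w = t := by
  have p0 : p ≠ 0 := (Fact.out : p.Prime).ne_zero
  by_cases h0 : u 0 = 0
  · by_cases h1 : u 1 = 0
    · by_cases h2 : u 2 = 0
      · by_cases h3 : u 3 = 0
        · have h4 : u 4 ≠ 0 := fun h4 => hu (funext fun i => by fin_cases i <;> assumption)
          obtain ⟨v, hv⟩ := dot_onto h4 t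
          exact ⟨![0, 0, 0, 0, v], by simp [beta, h0, h1, h2, h3, hv, p0]⟩
        · obtain ⟨v, hv⟩ := dot_onto h3 t
          exact ⟨![0, 0, 0, v, 0], by simp [beta, h0, h1, h2, hv, p0]⟩
      · obtain ⟨v, hv⟩ := dot_onto h2 t
        exact ⟨![0, 0, v, 0, 0], by simp [beta, h0, h1, hv, p0]⟩
    · obtain ⟨v, hv⟩ := dot_onto h1 t
      exact ⟨![0, v, 0, 0, 0], by simp [beta, h0, hv, p0]⟩
  · obtain ⟨v, hv⟩ := dot_onto h0 t
    exact ⟨![v, 0, 0, 0, 0], by simp [beta, hv, p0]⟩

theorem onto_w {w : Fin 5 → Fin m → K} (hw : w ≠ 0) (t : K) : ∃ u, beta K X Y u w = t := by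
  have p0 : p ≠ 0 := (Fact.out : p.Prime).ne_zero
  by_cases h0 : w 4 = 0
  · by_cases h1 : w 3 = 0
    · by_cases h2 : w 2 = 0
      · by_cases h3 : w 1 = 0
        · have h4 : w 0 ≠ 0 := fun h4 => hw (funext fun i => by fin_cases i <;> assumption)
          obtain ⟨v, hv⟩ := dot_onto h4 t
          exact ⟨![v, 0, 0, 0, 0], by simp [beta, h0, h1, h2, h3, dotProduct_comm v, hv, p0]⟩
        · obtain ⟨v, hv⟩ := dot_onto h3 t
          exact ⟨![0, v, 0, 0, 0], by simp [beta, h0, h1, h2, dotProduct_comm v, hv, p0]⟩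
      · obtain ⟨v, hv⟩ := dot_onto h2 t
        exact ⟨![0, 0, v, 0, 0], by simp [beta, h0, h1, dotProduct_comm v, hv, p0]⟩
    · obtain ⟨v, hv⟩ := dot_onto h1 t
      exact ⟨![0, 0, 0, v, 0], by simp [beta, h0, dotProduct_comm v, hv, p0]⟩
  · obtain ⟨v, hv⟩ := dot_onto h0 t
    exact ⟨![0, 0, 0, 0, v], by simp [beta, dotProduct_comm v, hv, p0]⟩

theorem onto {a : Heis K X Y} (ha : ¬ (a.u = 0 ∧ a.w = 0)) (t : K) :
    ∃ b : Heis K X Y, a * b = ⟨0, 0, t⟩ * (b * a) := by
  by_cases h : a.u = 0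
  · obtain ⟨u, hu⟩ := onto_w (X := X) (Y := Y) (fun e => ha ⟨h, e⟩) (-t)
    exact ⟨⟨u, 0, 0⟩, by rw [swap, beta_zero_right, hu, zero_sub, neg_neg]⟩
  · obtain ⟨w, hw⟩ := onto_u (X := X) (Y := Y) h t
    exact ⟨⟨0, w, 0⟩, by rw [swap, beta_zero_left, hw, sub_zero]⟩

theorem mem_cen {a : Heis K X Y} : a ∈ center (Heis K X Y) ↔ a.u = 0 ∧ a.w = 0 := by
  refine ⟨fun h => by_contra fun h1 => ?_, fun h => mem_center_iff.2 fun b => ?_⟩
  · obtain ⟨b, hb⟩ := onto h1 1
    rw [mem_center_iff.1 h b, eq_comm, mul_eq_right, one_eq] at hb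
    exact one_ne_zero (congrArg Heis.z hb)
  · rw [swap, h.1, h.2, beta_zero_left, beta_zero_right, sub_zero, ← one_eq, one_mul]

theorem cen_eq {a : Heis K X Y} (h : a ∈ center (Heis K X Y)) : a = ⟨0, 0, a.z⟩ :=
  Heis.ext (mem_cen.1 h).1 (mem_cen.1 h).2 rfl

theorem comm_cen (a b : Heis K X Y) : ⁅a, b⁆ ∈ center (Heis K X Y) := by
  rw [commutatorElement_def, swap a b, ← mul_assoc, mul_inv_cancel_right, mul_inv_cancel_right]
  exact mem_cen.2 ⟨rfl, rfl⟩

theorem cen_comm (hm : 0 < m) {c : Heis K X Y} (h : c ∈ center (Heis K X Y)) :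
    ∃ a b : Heis K X Y, c = ⁅a, b⁆ := by
  obtain ⟨b, hb⟩ := onto (a := (⟨fun _ _ => 1, 0, 0⟩ : Heis K X Y))
    (fun e => one_ne_zero (congrFun (congrFun e.1 0) ⟨0, hm⟩)) c.z
  refine ⟨⟨fun _ _ => 1, 0, 0⟩, b, ?_⟩
  rw [commutatorElement_def, hb, ← mul_assoc, mul_inv_cancel_right, mul_inv_cancel_right]
  exact cen_eq h

theorem comm_eq (hm : 0 < m) : commutator (Heis K X Y) = center (Heis K X Y) := by
  refine le_antisymm (commutator_le.2 fun a _ b _ => comm_cen a b) fun c hc => ?_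
  obtain ⟨a, b, rfl⟩ := cen_comm hm hc
  exact commutator_mem_commutator (mem_top a) (mem_top b)

theorem aut_iff (hm : 0 < m) (f : MulAut (Heis K X Y)) :
    (∀ x, x⁻¹ * f x ∈ center (Heis K X Y)) ↔ ∀ x, IsConj x (f x) := by
  refine ⟨fun h x => ?_, fun h x => ?_⟩
  · by_cases hx : x ∈ center (Heis K X Y)
    · obtain ⟨a, b, rfl⟩ := cen_comm hm hx
      have h1 := mem_center_iff.1 (h a)
      have h2 := mem_center_iff.1 (h b)
      have e : f ⁅a, b⁆ = ⁅a, b⁆ := by
        rw [map_commutatorElement, ← mul_inv_cancel_left a (f a), ← mul_inv_cancel_left b (f b)]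
        generalize a⁻¹ * f a = c at h1
        generalize b⁻¹ * f b = d at h2
        have e1 : a * c * (b * d) = c * d * (a * b) := by
          rw [h1 a, h2 b, mul_assoc c, ← mul_assoc a, h2 a, mul_assoc d, ← mul_assoc]
        have e2 : b * d * (a * c) = c * d * (b * a) := by
          rw [h1 a, h2 b, ← h1 d, mul_assoc d, ← mul_assoc b, h1 b, mul_assoc c, ← mul_assoc]
        have e3 : ∀ g, g * (c * d) = c * d * g := fun g => by
          rw [← mul_assoc, h1 g, mul_assoc, h2 g, mul_assoc]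
        rw [commutatorElement_def, commutatorElement_def, mul_assoc _ _ (b * d)⁻¹, ← _root_.mul_inv_rev,
          e1, e2, ← e3, ← e3, _root_.mul_inv_rev, ← mul_assoc, mul_inv_cancel_right, _root_.mul_inv_rev,
          mul_assoc _ a⁻¹]
      rw [e]
    · obtain ⟨b, hb⟩ := onto (fun e => hx (mem_cen.2 e)) (x⁻¹ * f x).z
      rw [← cen_eq (h x), ← mul_assoc, ← mem_center_iff.1 (h x) b, mul_assoc,
        ← mem_center_iff.1 (h x) x, mul_inv_cancel_left] at hb
      exact isConj_iff.2 ⟨b⁻¹, by rw [inv_inv, mul_assoc, hb, inv_mul_cancel_left]⟩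
  · obtain ⟨c, hc⟩ := isConj_iff.1 (h x)
    have h1 := comm_cen x⁻¹ c
    rwa [commutatorElement_def, inv_inv, mul_assoc, mul_assoc, ← mul_assoc c, hc] at h1

theorem pow_eq (a : Heis K X Y) (n : ℕ) :
    a ^ n = ⟨(n : K) • a.u, (n : K) • a.w, n * a.z + n.choose 2 * beta K X Y a.u a.w⟩ := by
  have h : ∀ n : ℕ, beta K X Y ((n : K) • a.u) a.w = n * beta K X Y a.u a.w := fun n => by
    induction n with
    | zero => rw [Nat.cast_zero, zero_smul, beta_zero_left, zero_mul]
    | succ n ih => rw [Nat.cast_succ, add_smul, one_smul, beta_add_left, ih, add_mul, one_mul]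
  induction n with
  | zero => simp [one_eq]
  | succ n ih =>
    rw [pow_succ, ih]
    refine Heis.ext ?_ ?_ ?_
    · simp only [mul_u, Nat.cast_succ, add_smul, one_smul]
    · simp only [mul_w, Nat.cast_succ, add_smul, one_smul]
    · simp only [mul_z, h, Nat.choose_succ_succ' n 1, Nat.choose_one_right, Nat.cast_add,
        Nat.cast_one]
      ring

theorem pow_p (hp : p ≠ 2) (a : Heis K X Y) : a ^ p = 1 := by
  have := charP_of_injective_algebraMap (algebraMap (ZMod p) K).injective p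
  have h : ((p.choose 2 : ℕ) : K) = 0 := (CharP.cast_eq_zero_iff K p _).2
    ((Fact.out : p.Prime).dvd_choose_self two_ne_zero
      (lt_of_le_of_ne (Fact.out : p.Prime).two_le hp.symm))
  rw [pow_eq, h, CharP.cast_eq_zero, one_eq]
  simp

omit [Fact p.Prime] [Field K] [Algebra (ZMod p) K] in
theorem card_heis : Nat.card (Heis K X Y) = Nat.card K ^ (10 * m + 1) := by
  rw [Nat.card_congr (β := (Fin 5 → Fin m → K) × (Fin 5 → Fin m → K) × K)
    ⟨fun a => (a.u, a.w, a.z), fun a => ⟨a.1, a.2.1, a.2.2⟩, fun _ => rfl, fun _ => rfl⟩]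
  simp only [Nat.card_prod, Nat.card_fun, Nat.card_eq_fintype_card, Fintype.card_fin]
  ring

theorem card_cen : Nat.card (center (Heis K X Y)) = Nat.card K :=
  Nat.card_congr ⟨fun a => a.1.z, fun z => ⟨⟨0, 0, z⟩, mem_cen.2 ⟨rfl, rfl⟩⟩,
    fun a => Subtype.ext (cen_eq a.2).symm, fun _ => rfl⟩

end Pool.Agent.Work.MP_7393fc_al.Wild
end

-- merged part: Pool.Agent.Work.MP_7393fc_al.Wild.Core
section
/-! Rigidity of the maps `J x y + J (a x) y ^ p + J (b x) y ^ p ^ 2` with `a`, `b` jointly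
nilpotent: an additive equivalence between two of them carries `a`, `b` to `a'`, `b'` up to
scalars. -/

open Polynomial

namespace Pool.Agent.Work.MP_7393fc_al.Wild

variable {p k : ℕ} [Fact p.Prime] {K : Type} [Field K] [Finite K] [Algebra (ZMod p) K]
  {V : Type} [AddCommGroup V] [Module K V]

omit [Algebra (ZMod p) K] in
theorem core_ind (hk : 3 ≤ k) (hK : Nat.card K = p ^ k) {c0 c1 c2 : K}
    (h : ∀ s : K, s ^ p ^ 2 * c0 + s ^ p * c1 + s * c2 = 0) : c0 = 0 ∧ c1 = 0 ∧ c2 = 0 := by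
  have := Fintype.ofFinite K
  have hp : 1 < p := (Fact.out : p.Prime).one_lt
  have h1 : p < p ^ 2 := by nlinarith
  have h2 : (monomial (p ^ 2) c0 + monomial p c1 + monomial 1 c2 : K[X]) = 0 := by
    refine eq_zero_of_natDegree_lt_card_of_eval_eq_zero _ Function.injective_id (fun s => ?_) ?_
    · simp only [eval_add, eval_monomial, id]
      linear_combination h s
    · rw [← Nat.card_eq_fintype_card, hK]
      refine lt_of_le_of_lt ?_ (Nat.pow_lt_pow_right hp (show 2 < k by omega))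
      refine natDegree_add_le_of_degree_le (natDegree_add_le_of_degree_le
        (natDegree_monomial_le _) ((natDegree_monomial_le _).trans h1.le))
        ((natDegree_monomial_le _).trans (by omega))
  have h3 := fun n => congrArg (fun q : K[X] => q.coeff n) h2
  simp only [coeff_add, coeff_monomial, coeff_zero] at h3
  have e1 := h3 (p ^ 2)
  have e2 := h3 p
  have e3 := h3 1
  rw [if_pos rfl, if_neg h1.ne, if_neg (by omega)] at e1
  rw [if_neg h1.ne', if_pos rfl, if_neg hp.ne] at e2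
  rw [if_neg (by omega), if_neg hp.ne', if_pos rfl] at e3
  exact ⟨by simpa using e1, by simpa using e2, by simpa using e3⟩

theorem core_trp (x : K) : Algebra.trace (ZMod p) K (x ^ p) = Algebra.trace (ZMod p) K x := by
  have h := Algebra.trace_eq_of_algEquiv (FiniteField.frobeniusAlgEquivOfAlgebraic (ZMod p) K) x
  rwa [FiniteField.coe_frobeniusAlgEquivOfAlgebraic, ZMod.card] at h

theorem core_tr0 {s : K} (h : ∀ z, Algebra.trace (ZMod p) K (s * z) = 0) : s = 0 :=
  (traceForm_nondegenerate (ZMod p) K).1 s h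

theorem core_dual (l : K →+ ZMod p) : ∃ s : K, ∀ z, l z = Algebra.trace (ZMod p) K (s * z) :=
  ⟨_, fun z => (LinearMap.BilinForm.apply_toDual_symm_apply
    (hB := traceForm_nondegenerate (ZMod p) K) (l.toZModLinearMap p) z).symm⟩

omit [Fact p.Prime] [Algebra (ZMod p) K] in
theorem core_root (hk : 3 ≤ k) (hK : Nat.card K = p ^ k) (s : K) :
    (s ^ p ^ 2) ^ p ^ (k - 2) = s ∧ (s ^ p ^ (k - 2)) ^ p ^ 2 = s ∧ s ^ p ^ k = s := by
  have := Fintype.ofFinite K
  have h : s ^ p ^ k = s := by rw [← hK, Nat.card_eq_fintype_card, FiniteField.pow_card]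
  refine ⟨?_, ?_, h⟩
  · rw [← pow_mul, ← pow_add, show 2 + (k - 2) = k by omega, h]
  · rw [← pow_mul, ← pow_add, show k - 2 + 2 = k by omega, h]

/-- A filtration of length five. -/
structure Flt (F : ℕ → Submodule K V) : Prop where
  top : ∀ x, x ∈ F 0
  bot : ∀ x ∈ F 5, x = 0
  anti : ∀ j, F (j + 1) ≤ F j

/-- The operator raises the filtration. -/
def Rai (F : ℕ → Submodule K V) (T : Module.End K V) : Prop := ∀ j, ∀ x ∈ F j, T x ∈ F (j + 1)

omit [Finite K] in
theorem core_back {F : ℕ → Submodule K V} (hF : Flt F) {n : Module.End K V} (hn : Rai F n) {t : K}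
    (ht : t ≠ 0) {x : V} {j : ℕ} (h : t • x + n x ∈ F j) : x ∈ F j := by
  induction j with
  | zero => exact hF.top x
  | succ j ih =>
    have h1 := (F (j + 1)).sub_mem h (hn j x (ih (hF.anti j h)))
    rw [add_sub_cancel_right] at h1
    exact ((F (j + 1)).smul_mem_iff ht).1 h1

omit [Finite K] in
theorem core_pow {F : ℕ → Submodule K V} (hF : Flt F) (hk : 3 ≤ k) {n n' N : Module.End K V}
    (hn : Rai F n) (hn' : Rai F n') {t t' : K} (ht : t ≠ 0)
    (h : ∀ x, t • N x + n (N x) = t' • x + n' x) (x : V) :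
    (N ^ p ^ k) x = (t' / t) ^ p ^ k • x := by
  obtain ⟨r, hr⟩ : ∃ r : Module.End K V, r = N - (t' / t) • 1 := ⟨_, rfl⟩
  have h1 : Rai F r := fun j x hx => by
    refine core_back hF hn ht ?_
    have e : t • r x + n (r x) = n' x - (t' / t) • n x := by
      simp only [hr, LinearMap.sub_apply, LinearMap.smul_apply, Module.End.one_apply, smul_sub,
        map_sub, map_smul, smul_smul, mul_div_cancel₀ _ ht]
      rw [sub_add_sub_comm, h]
      abel
    rw [e]
    exact sub_mem (hn' j x hx) ((F (j + 1)).smul_mem _ (hn j x hx))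
  have h2 : ∀ i, ∀ x, (r ^ i) x ∈ F i := fun i x => by
    induction i with
    | zero => exact hF.top _
    | succ i ih =>
      rw [pow_succ', Module.End.mul_apply]
      exact h1 i _ ih
  have h3 : r ^ p ^ k = 0 := by
    refine pow_eq_zero_of_le (m := 5) ?_ (LinearMap.ext fun x => hF.bot _ (h2 5 x))
    calc 5 ≤ 2 ^ 3 := by norm_num
      _ ≤ p ^ 3 := Nat.pow_le_pow_left (Fact.out : p.Prime).two_le 3
      _ ≤ p ^ k := Nat.pow_le_pow_right (Fact.out : p.Prime).pos hk
  have h4 : (p : Module.End K V) = 0 := by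
    rw [← map_natCast (algebraMap K (Module.End K V)), ← map_natCast (algebraMap (ZMod p) K),
      ZMod.natCast_self, map_zero, map_zero]
  obtain ⟨c, hc⟩ := (Commute.smul_right (Commute.one_right r) (t' / t)).exists_add_pow_prime_pow_eq
    (Fact.out : p.Prime) k
  rw [h3, h4, zero_mul, zero_mul, zero_mul, zero_add, add_zero, hr, sub_add_cancel,
    _root_.smul_pow, one_pow] at hc
  rw [hc, LinearMap.smul_apply, Module.End.one_apply]

theorem core_form (J : V →ₗ[K] V →ₗ[K] K) (a b : Module.End K V) (s : K) (x y : V) :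
    Algebra.trace (ZMod p) K (s ^ p ^ 2 * (J x y + J (a x) y ^ p + J (b x) y ^ p ^ 2)) =
      Algebra.trace (ZMod p) K (J (s ^ p ^ 2 • x + (s ^ p • a + s • b) x) y) := by
  have e1 : s ^ p ^ 2 * J (a x) y ^ p = (s ^ p * J (a x) y) ^ p := by
    rw [mul_pow, ← pow_mul, sq]
  have e2 : s ^ p ^ 2 * J (b x) y ^ p ^ 2 = ((s * J (b x) y) ^ p) ^ p := by
    rw [← pow_mul, ← sq, mul_pow]
  simp only [mul_add, e1, e2, map_add, core_trp, map_smul, LinearMap.add_apply,
    LinearMap.smul_apply, smul_eq_mul, add_assoc]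

theorem core (hk : 3 ≤ k) (hK : Nat.card K = p ^ k) [Finite V] {F : ℕ → Submodule K V}
    (hF : Flt F) {a b a' b' : Module.End K V} (ha : Rai F a) (hb : Rai F b) (ha' : Rai F a')
    (hb' : Rai F b') (J : V →ₗ[K] V →ₗ[K] K) (hJ : ∀ x, (∀ y, J x y = 0) → x = 0) (α : V ≃+ V)
    (γ : K ≃+ K) (h : ∀ x y, J (α x) (α y) + J (a' (α x)) (α y) ^ p + J (b' (α x)) (α y) ^ p ^ 2 =
      γ (J x y + J (a x) y ^ p + J (b x) y ^ p ^ 2)) :
    ∃ c c' : K, c ≠ 0 ∧ c' ≠ 0 ∧ (∀ x, a' (α x) = α (c • a x)) ∧ ∀ x, b' (α x) = α (c' • b x) := by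
  have hr := core_root hk hK
  obtain ⟨d, hd⟩ : ∃ d : K → K, ∀ s z, Algebra.trace (ZMod p) K (s ^ p ^ 2 * γ z) =
      Algebra.trace (ZMod p) K (d s ^ p ^ 2 * z) := by
    choose d hd using fun s : K => core_dual (((Algebra.trace (ZMod p) K).toAddMonoidHom.comp
      (AddMonoidHom.mulLeft (s ^ p ^ 2))).comp γ.toAddMonoidHom)
    exact ⟨fun s => d s ^ p ^ (k - 2), fun s z => by rw [(hr _).2.1, ← hd]; rfl⟩
  have d1 : Function.Injective d := fun s t e => by
    have h1 : s ^ p ^ 2 - t ^ p ^ 2 = 0 := core_tr0 (p := p) fun z => by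
      obtain ⟨z, rfl⟩ := γ.surjective z
      rw [sub_mul, map_sub, hd, hd, e, sub_self]
    rw [← (hr s).1, sub_eq_zero.1 h1, (hr t).1]
  have p0 : p ≠ 0 := (Fact.out : p.Prime).ne_zero
  have d0 : d 1 ≠ 0 := fun e => one_ne_zero (core_tr0 (p := p) (s := (1 : K)) fun z => by
    obtain ⟨z, rfl⟩ := γ.surjective z
    have h1 := hd 1 z
    rwa [e, one_pow, zero_pow (pow_ne_zero _ p0), zero_mul, map_zero] at h1)
  have hT : ∀ x, (∀ y, Algebra.trace (ZMod p) K (J x y) = 0) → x = 0 := fun x hx =>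
    hJ x fun y => core_tr0 (p := p) fun z => by rw [mul_comm, ← smul_eq_mul, ← map_smul, hx]
  have r1 : ∀ {a b : Module.End K V}, Rai F a → Rai F b → ∀ s : K, Rai F (s ^ p • a + s • b) :=
    fun h1 h2 s j x hx => add_mem ((F _).smul_mem _ (h1 j x hx)) ((F _).smul_mem _ (h2 j x hx))
  have r2 : ∀ {n : Module.End K V}, Rai F n → ∀ {t : K}, t ≠ 0 →
      Function.Bijective (t • (1 : Module.End K V) + n) := fun h1 t ht =>
    Finite.injective_iff_bijective.1 ((injective_iff_map_eq_zero _).2 fun x hx =>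
      hF.bot x (core_back hF h1 ht (j := 5) (by rw [show t • x + _ = 0 from hx]; exact zero_mem _)))
  have k1 : ∀ s x y, Algebra.trace (ZMod p) K
      (J (s ^ p ^ 2 • α x + (s ^ p • a' + s • b') (α x)) (α y)) =
      Algebra.trace (ZMod p) K (J (d s ^ p ^ 2 • x + (d s ^ p • a + d s • b) x) y) :=
    fun s x y => by rw [← core_form, ← core_form, h, hd]
  obtain ⟨H, hH⟩ : ∃ H : Module.End K V, ∀ x,
      (1 : K) ^ p ^ 2 • H x + ((1 : K) ^ p • a' + (1 : K) • b') (H x) = x :=
    ⟨(LinearEquiv.ofBijective _ (r2 (r1 ha' hb' 1) (pow_ne_zero _ one_ne_zero))).symm.toLinearMap,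
      (LinearEquiv.ofBijective _ (r2 (r1 ha' hb' 1) (pow_ne_zero _ one_ne_zero))).apply_symm_apply⟩
  obtain ⟨G, hG⟩ : ∃ G : Module.End K V,
      (∀ x, d 1 ^ p ^ 2 • G x + (d 1 ^ p • a + d 1 • b) (G x) = x) ∧
        ∀ x, G (d 1 ^ p ^ 2 • x + (d 1 ^ p • a + d 1 • b) x) = x :=
    ⟨(LinearEquiv.ofBijective _ (r2 (r1 ha hb (d 1)) (pow_ne_zero _ d0))).symm.toLinearMap,
      (LinearEquiv.ofBijective _ (r2 (r1 ha hb (d 1)) (pow_ne_zero _ d0))).apply_symm_apply,
      (LinearEquiv.ofBijective _ (r2 (r1 ha hb (d 1)) (pow_ne_zero _ d0))).symm_apply_apply⟩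
  have k2 : ∀ s x, α (G (d s ^ p ^ 2 • x + (d s ^ p • a + d s • b) x)) =
      H (s ^ p ^ 2 • α x + (s ^ p • a' + s • b') (α x)) := fun s x => by
    obtain ⟨u, hu⟩ := α.surjective (H (s ^ p ^ 2 • α x + (s ^ p • a' + s • b') (α x)))
    rw [← hu, ← hG.2 u]
    congr 2
    refine sub_eq_zero.1 (hT _ fun y => ?_)
    rw [map_sub, LinearMap.sub_apply, map_sub, ← k1, ← k1, hu, hH, sub_self]
  have k3 : ∀ (N N' : Module.End K V), (∀ x, α (N x) = N' (α x)) → ∀ (i : ℕ) x,
      α ((N ^ i) x) = (N' ^ i) (α x) := fun N N' e i x => by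
    induction i with
    | zero => rfl
    | succ i ih => rw [pow_succ', pow_succ', Module.End.mul_apply, Module.End.mul_apply, e, ih]
  have k4 : ∀ (s t : K), (∀ x, α (s • x) = t • α x) → ∀ (i : ℕ) x, α (s ^ i • x) = t ^ i • α x :=
    fun s t e i x => by
      induction i with
      | zero => rw [pow_zero, pow_zero, one_smul, one_smul]
      | succ i ih => rw [pow_succ', pow_succ', mul_smul, mul_smul, e, ih]
  have k5 : ∀ s x, α ((d s / d 1) • x) = s • α x := fun s x => by
    suffices h0 : ∀ x, α ((d s / d 1) ^ p ^ 2 • x) = s ^ p ^ 2 • α x by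
      have h1 := k4 _ _ h0 (p ^ (k - 2)) x
      rwa [(hr _).1, (hr _).1] at h1
    intro x
    have h1 := k3 (G * (d s ^ p ^ 2 • 1 + (d s ^ p • a + d s • b)))
      (H * (s ^ p ^ 2 • 1 + (s ^ p • a' + s • b'))) (k2 s) (p ^ k) x
    rw [core_pow hF hk (r1 ha hb (d 1)) (r1 ha hb (d s)) (pow_ne_zero (p ^ 2) d0)
      (t' := d s ^ p ^ 2) (fun x => hG.1 _), core_pow hF hk (r1 ha' hb' 1) (r1 ha' hb' s)
      (pow_ne_zero (p ^ 2) one_ne_zero) (t' := s ^ p ^ 2) (fun x => hH _), (hr _).2.2, (hr _).2.2,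
      one_pow, div_one] at h1
    rw [div_pow, h1]
  have k6 : ∀ x u0 u1 u2, α u0 = H (α x) → α u1 = H (a' (α x)) → α u2 = H (b' (α x)) →
      d 1 ^ p ^ 2 • G x = u0 ∧ d 1 ^ p • G (a x) = u1 ∧ d 1 • G (b x) = u2 := by
    intro x u0 u1 u2 e0 e1 e2
    have h1 : ∀ t : K, t ^ p ^ 2 • (d 1 ^ p ^ 2 • G x - u0) + t ^ p • (d 1 ^ p • G (a x) - u1) +
        t • (d 1 • G (b x) - u2) = 0 := fun t => by
      obtain ⟨s, hs⟩ := Finite.injective_iff_surjective.1 d1 (t * d 1)
      have h2 := k2 s x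
      have h3 := k5 s
      rw [hs, mul_div_cancel_right₀ _ d0] at h3
      simp only [map_add G, map_add H, map_smul, LinearMap.add_apply, LinearMap.smul_apply, ← e0,
        ← e1, ← e2, hs] at h2
      rw [← k4 _ _ h3, ← k4 _ _ h3, ← h3, ← map_add, ← map_add] at h2
      have h4 := α.injective h2
      simp only [smul_sub, smul_smul, ← mul_pow]
      rw [← sub_eq_zero] at h4
      rw [← h4]
      abel
    have h2 := fun y => core_ind hk hK (c0 := J (d 1 ^ p ^ 2 • G x - u0) y)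
      (c1 := J (d 1 ^ p • G (a x) - u1) y) (c2 := J (d 1 • G (b x) - u2) y) fun t => by
        have h3 := congrArg (fun v => J v y) (h1 t)
        simpa only [map_add, map_smul, LinearMap.add_apply, LinearMap.smul_apply, smul_eq_mul,
          map_zero, LinearMap.zero_apply] using h3
    exact ⟨sub_eq_zero.1 (hJ _ fun y => (h2 y).1), sub_eq_zero.1 (hJ _ fun y => (h2 y).2.1),
      sub_eq_zero.1 (hJ _ fun y => (h2 y).2.2)⟩
  have k7 := fun x => k6 x _ _ _ (α.apply_symm_apply _) (α.apply_symm_apply _)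
    (α.apply_symm_apply _)
  have k8 : ∀ (z v : V) (t : K), t • G v = α.symm (H z) → z = α ((t / d 1 ^ p ^ 2) • v) := by
    intro z v t e
    obtain ⟨z, rfl⟩ := α.surjective z
    rw [← (k7 z).1] at e
    have h1 : G ((t / d 1 ^ p ^ 2) • v) = G z := by
      rw [map_smul, div_eq_inv_mul, mul_smul, e, inv_smul_smul₀ (pow_ne_zero _ d0)]
    rw [← hG.1 z, ← h1, hG.1]
  exact ⟨_, _, div_ne_zero (pow_ne_zero _ d0) (pow_ne_zero _ d0), div_ne_zero d0 (pow_ne_zero _ d0),
    fun x => k8 _ _ _ (k7 x).2.1, fun x => k8 _ _ _ (k7 x).2.2⟩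

end Pool.Agent.Work.MP_7393fc_al.Wild
end

-- merged part: Pool.Agent.Work.MP_7393fc_al.Wild.Lov
section
/-! Cancellation of powers for finite abelian groups with two operators, by counting
homomorphisms according to their kernel. -/

open Finset

namespace Pool.Agent.Work.MP_7393fc_al.Wild

theorem lov_poset {A B L : Type} [Finite A] [Finite B] [Finite L] [PartialOrder L] (f : A → L)
    (g : B → L) (h : ∀ s, Nat.card {a // s ≤ f a} = Nat.card {b // s ≤ g b}) (s : L) :
    Nat.card {a // f a = s} = Nat.card {b // g b = s} := by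
  classical
  have := Fintype.ofFinite A
  have := Fintype.ofFinite B
  have := Fintype.ofFinite L
  have key : ∀ (C : Type) [Fintype C] (k : C → L) (s : L), Nat.card {c // s ≤ k c} =
      Nat.card {c // k c = s} + ∑ t ∈ (univ.filter (s ≤ ·)).erase s, Nat.card {c // k c = t} := by
    intro C _ k s
    rw [add_sum_erase (univ.filter (s ≤ ·)) (fun t => Nat.card {c // k c = t}) (by simp),
      Nat.card_eq_fintype_card, Fintype.card_subtype,
      card_eq_sum_card_fiberwise (f := k) (t := univ.filter (s ≤ ·)) fun c hc => by simpa using hc]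
    refine sum_congr rfl fun t ht => ?_
    rw [Nat.card_eq_fintype_card, Fintype.card_subtype, filter_filter]
    congr 1
    refine filter_congr fun c _ => ⟨fun k => k.2, fun e => ⟨?_, e⟩⟩
    rw [e]
    simpa using ht
  induction s using WellFoundedGT.induction with
  | ind s ih =>
    have h1 := h s
    rw [key A f s, key B g s, sum_congr rfl fun t ht => ih t
      (lt_of_le_of_ne (mem_filter.1 (mem_of_mem_erase ht)).2 (ne_of_mem_erase ht).symm)] at h1
    exact Nat.add_right_cancel h1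

/-- Additive maps which carry the operators `x`, `y` to `x'`, `y'`. -/
def Itw {M N : Type} [AddCommGroup M] [AddCommGroup N] (x y : M → M) (x' y' : N → N) : Type :=
  {f : M →+ N // (∀ v, f (x v) = x' (f v)) ∧ ∀ v, f (y v) = y' (f v)}

instance {M N : Type} [AddCommGroup M] [AddCommGroup N] [Finite M] [Finite N] (x y : M → M)
    (x' y' : N → N) : Finite (Itw x y x' y') :=
  Finite.of_injective (fun f => (f.1 : M → N)) fun _ _ e => Subtype.ext (DFunLike.coe_injective e)

theorem lov_pow {M N ι : Type} [AddCommGroup M] [AddCommGroup N] [Fintype ι] (x y : M → M)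
    (x' y' : N → N) (S : AddSubgroup M) :
    Nat.card {f : Itw x y (fun (v : ι → N) i => x' (v i)) (fun v i => y' (v i)) // S ≤ f.1.ker} =
      Nat.card {f : Itw x y x' y' // S ≤ f.1.ker} ^ Fintype.card ι := by
  rw [← Nat.card_eq_fintype_card, ← Nat.card_fun]
  refine Nat.card_congr
    { toFun := fun f i => ⟨⟨(Pi.evalAddMonoidHom (fun _ => N) i).comp f.1.1,
        fun v => congrFun (f.1.2.1 v) i, fun v => congrFun (f.1.2.2 v) i⟩,
        fun v hv => congrFun (f.2 hv) i⟩
      invFun := fun g => ⟨⟨AddMonoidHom.pi fun i => (g i).1.1,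
        fun v => funext fun i => (g i).1.2.1 v, fun v => funext fun i => (g i).1.2.2 v⟩,
        fun v hv => funext fun i => (g i).2 hv⟩
      left_inv := fun _ => rfl
      right_inv := fun _ => rfl }

theorem lov_tr {M N N' : Type} [AddCommGroup M] [AddCommGroup N] [AddCommGroup N'] (x y : M → M)
    {x' y' : N → N} {x'' y'' : N' → N'} (e : N ≃+ N') (h1 : ∀ v, e (x' v) = x'' (e v))
    (h2 : ∀ v, e (y' v) = y'' (e v)) (S : AddSubgroup M) :
    Nat.card {f : Itw x y x' y' // S ≤ f.1.ker} = Nat.card {f : Itw x y x'' y'' // S ≤ f.1.ker} := by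
  refine Nat.card_congr
    { toFun := fun f => ⟨⟨e.toAddMonoidHom.comp f.1.1, fun v => ?_, fun v => ?_⟩, fun v hv => ?_⟩
      invFun := fun f => ⟨⟨e.symm.toAddMonoidHom.comp f.1.1, fun v => ?_, fun v => ?_⟩,
        fun v hv => ?_⟩
      left_inv := fun f => Subtype.ext (Subtype.ext (AddMonoidHom.ext fun v =>
        e.symm_apply_apply _))
      right_inv := fun f => Subtype.ext (Subtype.ext (AddMonoidHom.ext fun v =>
        e.apply_symm_apply _)) }
  · exact (congrArg e (f.1.2.1 v)).trans (h1 _)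
  · exact (congrArg e (f.1.2.2 v)).trans (h2 _)
  · exact (congrArg e (f.2 hv)).trans (map_zero e)
  · refine (congrArg e.symm (f.1.2.1 v)).trans (e.injective ?_)
    rw [h1]
    simp
  · refine (congrArg e.symm (f.1.2.2 v)).trans (e.injective ?_)
    rw [h2]
    simp
  · exact (congrArg e.symm (f.2 hv)).trans (map_zero e.symm)

theorem lov {M ι : Type} [AddCommGroup M] [Finite M] [Fintype ι] [Nonempty ι] {x y x' y' : M → M}
    (e : (ι → M) ≃+ (ι → M)) (h1 : ∀ v, e (fun i => x (v i)) = fun i => x' (e v i))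
    (h2 : ∀ v, e (fun i => y (v i)) = fun i => y' (e v i)) :
    ∃ f : M →+ M, Function.Injective f ∧ (∀ v, f (x v) = x' (f v)) ∧ ∀ v, f (y v) = y' (f v) := by
  have h3 := lov_poset (fun f : Itw x y x y => f.1.ker) (fun f : Itw x y x' y' => f.1.ker)
    (fun S => by
      have h4 := lov_tr x y (x' := fun (v : ι → M) i => x (v i)) (y' := fun v i => y (v i))
        (x'' := fun (v : ι → M) i => x' (v i)) (y'' := fun v i => y' (v i)) e h1 h2 S
      rw [lov_pow, lov_pow] at h4
      exact Nat.pow_left_injective Fintype.card_ne_zero h4) ⊥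
  have h4 : Nonempty {f : Itw x y x y // f.1.ker = ⊥} :=
    ⟨⟨⟨AddMonoidHom.id M, fun _ => rfl, fun _ => rfl⟩, AddMonoidHom.ker_id⟩⟩
  obtain ⟨f, hf⟩ := (Nat.card_pos_iff.1 (h3 ▸ Nat.card_pos)).1
  exact ⟨f.1, (AddMonoidHom.ker_eq_bot_iff _).1 hf, f.2⟩

end Pool.Agent.Work.MP_7393fc_al.Wild
end

-- merged part: Pool.Agent.Work.MP_7393fc_al.Wild.Main
section
/-! `Heis K X Y` and `Heis K X' Y'` are isomorphic iff the pairs are simultaneously similar. -/

open Matrix Subgroup

namespace Pool.Agent.Work.MP_7393fc_al.Wild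

/-- The central quotient. -/
abbrev VV (K : Type) (m : ℕ) := (Fin 5 → Fin m → K) × (Fin 5 → Fin m → K)

variable {p k m : ℕ} [Fact p.Prime] {K : Type} [Field K] [Algebra (ZMod p) K]
  {X Y X' Y' : Matrix (Fin m) (Fin m) (ZMod p)}

/-- Sum of dot products. -/
def dt (u w : Fin 5 → Fin m → K) : K :=
  u 0 ⬝ᵥ w 0 + u 1 ⬝ᵥ w 1 + u 2 ⬝ᵥ w 2 + u 3 ⬝ᵥ w 3 + u 4 ⬝ᵥ w 4

/-- The standard symplectic form. -/
def sym (K : Type) [Field K] (m : ℕ) : VV K m →ₗ[K] VV K m →ₗ[K] K :=
  LinearMap.mk₂ K (fun x y => dt x.1 y.2 - dt y.1 x.2)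
    (fun x x' y => by simp only [dt, Prod.fst_add, Prod.snd_add, Pi.add_apply, add_dotProduct,
      dotProduct_add]; ring)
    (fun c x y => by simp only [dt, Prod.smul_fst, Prod.smul_snd, Pi.smul_apply, smul_dotProduct,
      dotProduct_smul, smul_eq_mul]; ring)
    (fun x y y' => by simp only [dt, Prod.fst_add, Prod.snd_add, Pi.add_apply, add_dotProduct,
      dotProduct_add]; ring)
    (fun c x y => by simp only [dt, Prod.smul_fst, Prod.smul_snd, Pi.smul_apply, smul_dotProduct,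
      dotProduct_smul, smul_eq_mul]; ring)

theorem sym_apply (x y : VV K m) : sym K m x y = dt x.1 y.2 - dt y.1 x.2 := rfl

theorem sym_nd (x : VV K m) (h : ∀ y, sym K m x y = 0) : x = 0 := by
  refine Prod.ext (funext fun i => funext fun j => ?_) (funext fun i => funext fun j => ?_)
  · have h1 := h (0, Pi.single i (Pi.single j 1))
    fin_cases i <;> simpa [sym_apply, dt] using h1
  · have h1 := h (Pi.single i (Pi.single j 1), 0)
    fin_cases i <;> simpa [sym_apply, dt] using h1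

/-- The shift. -/
def opA (K : Type) [Field K] (m : ℕ) : Module.End K (VV K m) where
  toFun x := (![0, x.1 0, x.1 1, x.1 2, x.1 3], ![x.2 1, x.2 2, x.2 3, x.2 4, 0])
  map_add' x y := Prod.ext (funext fun i => by fin_cases i <;> simp)
    (funext fun i => by fin_cases i <;> simp)
  map_smul' c x := Prod.ext (funext fun i => by fin_cases i <;> simp)
    (funext fun i => by fin_cases i <;> simp)

/-- The twisted shift. -/
def opB (A B : Matrix (Fin m) (Fin m) K) : Module.End K (VV K m) where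
  toFun x := (![0, 0, B *ᵥ x.1 1, A *ᵥ x.1 2, x.1 3], ![0, Bᵀ *ᵥ x.2 2, Aᵀ *ᵥ x.2 3, x.2 4, 0])
  map_add' x y := Prod.ext (funext fun i => by fin_cases i <;> simp [mulVec_add])
    (funext fun i => by fin_cases i <;> simp [mulVec_add])
  map_smul' c x := Prod.ext (funext fun i => by fin_cases i <;> simp [mulVec_smul])
    (funext fun i => by fin_cases i <;> simp [mulVec_smul])

theorem opA_apply (x : VV K m) : opA K m x =
    (![0, x.1 0, x.1 1, x.1 2, x.1 3], ![x.2 1, x.2 2, x.2 3, x.2 4, 0]) := rfl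

theorem opB_apply (A B : Matrix (Fin m) (Fin m) K) (x : VV K m) : opB A B x =
    (![0, 0, B *ᵥ x.1 1, A *ᵥ x.1 2, x.1 3], ![0, Bᵀ *ᵥ x.2 2, Aᵀ *ᵥ x.2 3, x.2 4, 0]) := rfl

theorem dot_tr (A : Matrix (Fin m) (Fin m) K) (u w : Fin m → K) :
    u ⬝ᵥ (Aᵀ *ᵥ w) = (A *ᵥ u) ⬝ᵥ w := by
  rw [dotProduct_mulVec, vecMul_transpose]

theorem form_eq (x y : VV K m) : beta K X Y x.1 y.2 - beta K X Y y.1 x.2 =
    sym K m x y + sym K m (opA K m x) y ^ p + sym K m (opB (X.map (algebraMap (ZMod p) K))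
      (Y.map (algebraMap (ZMod p) K)) x) y ^ p ^ 2 := by
  have := charP_of_injective_algebraMap (algebraMap (ZMod p) K).injective p
  simp only [sym_apply, sub_pow_char, sub_pow_char_pow, opA_apply, opB_apply, dt, beta,
    cons_val_zero, cons_val_one, cons_val, zero_dotProduct, dotProduct_zero, zero_add, add_zero,
    dot_tr]
  ring

/-- The filtration. -/
def flt (K : Type) [Field K] (m j : ℕ) : Submodule K (VV K m) where
  carrier := {x | (∀ i : Fin 5, (i : ℕ) < j → x.1 i = 0) ∧ ∀ i : Fin 5, 5 ≤ (i : ℕ) + j → x.2 i = 0}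
  add_mem' {x y} hx hy := ⟨fun i hi => by rw [Prod.fst_add, Pi.add_apply, hx.1 i hi, hy.1 i hi,
    add_zero], fun i hi => by rw [Prod.snd_add, Pi.add_apply, hx.2 i hi, hy.2 i hi, add_zero]⟩
  zero_mem' := ⟨fun _ _ => rfl, fun _ _ => rfl⟩
  smul_mem' c x hx := ⟨fun i hi => by rw [Prod.smul_fst, Pi.smul_apply, hx.1 i hi, smul_zero],
    fun i hi => by rw [Prod.smul_snd, Pi.smul_apply, hx.2 i hi, smul_zero]⟩

theorem flt_flt : Flt (flt K m) :=
  ⟨fun _ => ⟨fun i hi => by omega, fun i hi => by omega⟩,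
    fun x hx => Prod.ext (funext fun i => hx.1 i i.2) (funext fun i => hx.2 i (by omega)),
    fun j x hx => ⟨fun i hi => hx.1 i (by omega), fun i hi => hx.2 i (by omega)⟩⟩

theorem rai_A : Rai (flt K m) (opA K m) := fun j x hx => by
  refine ⟨fun i hi => ?_, fun i hi => ?_⟩
  · fin_cases i
    · rfl
    · exact hx.1 0 (by simpa using hi)
    · exact hx.1 1 (by simp at hi ⊢; omega)
    · exact hx.1 2 (by simp at hi ⊢; omega)
    · exact hx.1 3 (by simp at hi ⊢; omega)
  · fin_cases i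
    · exact hx.2 1 (by simp at hi ⊢; omega)
    · exact hx.2 2 (by simp at hi ⊢; omega)
    · exact hx.2 3 (by simp at hi ⊢; omega)
    · exact hx.2 4 (by simp at hi ⊢; omega)
    · rfl

theorem rai_B (A B : Matrix (Fin m) (Fin m) K) : Rai (flt K m) (opB A B) := fun j x hx => by
  refine ⟨fun i hi => ?_, fun i hi => ?_⟩
  · fin_cases i
    · rfl
    · rfl
    · exact (congrArg (B *ᵥ ·) (hx.1 1 (by simp at hi ⊢; omega))).trans (mulVec_zero _)
    · exact (congrArg (A *ᵥ ·) (hx.1 2 (by simp at hi ⊢; omega))).trans (mulVec_zero _)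
    · exact hx.1 3 (by simp at hi ⊢; omega)
  · fin_cases i
    · rfl
    · exact (congrArg (Bᵀ *ᵥ ·) (hx.2 2 (by simp at hi ⊢; omega))).trans (mulVec_zero _)
    · exact (congrArg (Aᵀ *ᵥ ·) (hx.2 3 (by simp at hi ⊢; omega))).trans (mulVec_zero _)
    · exact hx.2 4 (by simp at hi ⊢; omega)
    · rfl

theorem iso_data [Finite K] (f : Heis K X Y ≃* Heis K X' Y') :
    ∃ (α : VV K m ≃+ VV K m) (γ : K ≃+ K), ∀ x y : VV K m,
      beta K X' Y' (α x).1 (α y).2 - beta K X' Y' (α y).1 (α x).2 =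
        γ (beta K X Y x.1 y.2 - beta K X Y y.1 x.2) := by
  have hc : ∀ a, f a ∈ center (Heis K X' Y') ↔ a ∈ center (Heis K X Y) := fun a =>
    MulEquivClass.apply_mem_center_iff f
  have h0 : ∀ z, f ⟨0, 0, z⟩ = ⟨0, 0, (f ⟨0, 0, z⟩).z⟩ := fun z =>
    cen_eq ((hc _).2 (mem_cen.2 ⟨rfl, rfl⟩))
  let γ : K →+ K := AddMonoidHom.mk' (fun z => (f ⟨0, 0, z⟩).z) fun z z' => by
    have e : (⟨0, 0, z + z'⟩ : Heis K X Y) = ⟨0, 0, z⟩ * ⟨0, 0, z'⟩ :=
      Heis.ext (add_zero _).symm (add_zero _).symm (by rw [mul_z, beta_zero_left, add_zero])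
    rw [e, map_mul, mul_z, h0 z, beta_zero_left, add_zero]
  let α : VV K m →+ VV K m := AddMonoidHom.mk'
    (fun x => ((f ⟨x.1, x.2, 0⟩).u, (f ⟨x.1, x.2, 0⟩).w)) fun x y => by
      have e : (⟨(x + y).1, (x + y).2, 0⟩ : Heis K X Y) =
          ⟨0, 0, -beta K X Y x.1 y.2⟩ * (⟨x.1, x.2, 0⟩ * ⟨y.1, y.2, 0⟩) :=
        Heis.ext (zero_add _).symm (zero_add _).symm (by simp [mul_z, beta_zero_left])
      rw [e, map_mul, map_mul, h0]
      exact Prod.ext (zero_add _) (zero_add _)
  have hγ : Function.Injective γ := (injective_iff_map_eq_zero γ).2 fun z hz => by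
    have e := h0 z
    rw [show (f ⟨0, 0, z⟩).z = 0 from hz, ← one_eq, map_eq_one_iff f f.injective] at e
    exact congrArg Heis.z e
  have hα : Function.Injective α := (injective_iff_map_eq_zero α).2 fun x hx => by
    have e := mem_cen.1 ((hc ⟨x.1, x.2, 0⟩).1
      (mem_cen.2 ⟨congrArg Prod.fst hx, congrArg Prod.snd hx⟩))
    exact Prod.ext e.1 e.2
  refine ⟨AddEquiv.ofBijective α (Finite.injective_iff_bijective.1 hα),
    AddEquiv.ofBijective γ (Finite.injective_iff_bijective.1 hγ), fun x y => ?_⟩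
  have e := congrArg f (swap (⟨x.1, x.2, 0⟩ : Heis K X Y) ⟨y.1, y.2, 0⟩)
  rw [map_mul, map_mul, map_mul, swap, h0] at e
  exact congrArg Heis.z (mul_right_cancel e)

theorem iso_itw [Finite K] (hk : 3 ≤ k) (hK : Nat.card K = p ^ k)
    (f : Heis K X Y ≃* Heis K X' Y') : ∃ Φ : (Fin m → K) →+ (Fin m → K), Function.Injective Φ ∧
      (∀ v, Φ (X.map (algebraMap (ZMod p) K) *ᵥ v) = X'.map (algebraMap (ZMod p) K) *ᵥ Φ v) ∧
      ∀ v, Φ (Y.map (algebraMap (ZMod p) K) *ᵥ v) = Y'.map (algebraMap (ZMod p) K) *ᵥ Φ v := by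
  obtain ⟨α, γ, h⟩ := iso_data f
  simp only [form_eq] at h
  obtain ⟨c, c', hc, hc', ha, hb⟩ := core hk hK flt_flt rai_A (rai_B _ _) rai_A (rai_B _ _)
    (sym K m) sym_nd α γ h
  generalize X.map (algebraMap (ZMod p) K) = A at hb
  generalize Y.map (algebraMap (ZMod p) K) = B at hb
  generalize X'.map (algebraMap (ZMod p) K) = A' at hb
  generalize Y'.map (algebraMap (ZMod p) K) = B' at hb
  let Φ : (Fin m → K) →+ (Fin m → K) := AddMonoidHom.mk'
    (fun v => (α (![v, 0, 0, 0, 0], 0)).1 0) fun v v' => by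
      have e : ((![v + v', 0, 0, 0, 0], 0) : VV K m) =
          (![v, 0, 0, 0, 0], 0) + (![v', 0, 0, 0, 0], 0) := by simp
      rw [e, map_add]
      rfl
  have h0 : ∀ v, α ((c ^ 3 * c') • (![0, 0, 0, 0, v], 0)) = (![0, 0, 0, 0, Φ v], 0) := fun v => by
    have e : opB A' B' (opA K m (opA K m (opA K m (α (![v, 0, 0, 0, 0], 0))))) =
        α ((c ^ 3 * c') • (![0, 0, 0, 0, v], 0)) := by
      rw [ha, ha, ha, hb]
      refine congrArg α ?_
      simp only [map_smul, smul_smul]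
      refine congrArg₂ _ (by ring) ?_
      simp [opA_apply, opB_apply]
    rw [← e]
    simp [opA_apply, opB_apply, Φ]
  refine ⟨Φ, (injective_iff_map_eq_zero Φ).2 fun v hv => ?_, fun v => ?_, fun v => ?_⟩
  · have e := h0 v
    rw [hv, show ((![0, 0, 0, 0, 0], 0) : VV K m) = 0 by simp, α.map_eq_zero_iff,
      smul_eq_zero_iff_right (mul_ne_zero (pow_ne_zero _ hc) hc')] at e
    exact congrFun (congrArg Prod.fst e) 4
  · have e : opA K m (opB A' B' (opA K m (opA K m (α (![v, 0, 0, 0, 0], 0))))) =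
        α ((c ^ 3 * c') • (![0, 0, 0, 0, A *ᵥ v], 0)) := by
      rw [ha, ha, hb, ha]
      refine congrArg α ?_
      simp only [map_smul, smul_smul]
      refine congrArg₂ _ (by ring) ?_
      simp [opA_apply, opB_apply]
    rw [h0] at e
    exact (congrFun (congrArg Prod.fst e) 4).symm
  · have e : opA K m (opA K m (opB A' B' (opA K m (α (![v, 0, 0, 0, 0], 0))))) =
        α ((c ^ 3 * c') • (![0, 0, 0, 0, B *ᵥ v], 0)) := by
      rw [ha, hb, ha, ha]
      refine congrArg α ?_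
      simp only [map_smul, smul_smul]
      refine congrArg₂ _ (by ring) ?_
      simp [opA_apply, opB_apply]
    rw [h0] at e
    exact (congrFun (congrArg Prod.fst e) 4).symm

theorem sim_of_iso [Finite K] (hk : 3 ≤ k) (hK : Nat.card K = p ^ k)
    (f : Heis K X Y ≃* Heis K X' Y') : ∃ P, IsUnit P ∧ P * X = X' * P ∧ P * Y = Y' * P := by
  obtain ⟨Φ, h0, h1, h2⟩ := iso_itw hk hK f
  let b := Module.finBasis (ZMod p) K
  have : Nonempty (Fin (Module.finrank (ZMod p) K)) := ⟨⟨0, Module.finrank_pos⟩⟩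
  let e : (Fin m → K) ≃+ (Fin (Module.finrank (ZMod p) K) → Fin m → ZMod p) :=
    { toFun := fun v i j => b.equivFun (v j) i
      invFun := fun v j => b.equivFun.symm fun i => v i j
      left_inv := fun v => funext fun j => b.equivFun.symm_apply_apply _
      right_inv := fun v => funext fun i => funext fun j =>
        congrFun (b.equivFun.apply_symm_apply _) i
      map_add' := fun v v' => funext fun i => funext fun j => congrFun (map_add b.equivFun _ _) i }
  have he : ∀ (Z : Matrix (Fin m) (Fin m) (ZMod p)) v,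
      e (Z.map (algebraMap (ZMod p) K) *ᵥ v) = fun i => Z *ᵥ e v i := fun Z v => by
    funext i j
    show b.equivFun (∑ l, algebraMap (ZMod p) K (Z j l) * v l) i = ∑ l, Z j l * b.equivFun (v l) i
    simp only [← Algebra.smul_def, map_sum, map_smul, Finset.sum_apply, Pi.smul_apply, smul_eq_mul]
  obtain ⟨g, g0, g1, g2⟩ := lov (x := (X *ᵥ ·)) (y := (Y *ᵥ ·)) (x' := (X' *ᵥ ·)) (y' := (Y' *ᵥ ·))
    (e.symm.trans ((AddEquiv.ofBijective Φ (Finite.injective_iff_bijective.1 h0)).trans e))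
    (fun v => by
      obtain ⟨v, rfl⟩ := e.surjective v
      show e (Φ (e.symm _)) = fun i => X' *ᵥ e (Φ (e.symm (e v))) i
      rw [← he, ← he, e.symm_apply_apply, e.symm_apply_apply, h1])
    (fun v => by
      obtain ⟨v, rfl⟩ := e.surjective v
      show e (Φ (e.symm _)) = fun i => Y' *ᵥ e (Φ (e.symm (e v))) i
      rw [← he, ← he, e.symm_apply_apply, e.symm_apply_apply, h2])
  have hP : ∀ v, LinearMap.toMatrix' (g.toZModLinearMap p) *ᵥ v = g v := fun v =>
    LinearMap.toMatrix'_mulVec _ v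
  refine ⟨LinearMap.toMatrix' (g.toZModLinearMap p), mulVec_injective_iff_isUnit.1 ?_,
    toLin'.injective (LinearMap.ext fun v => ?_), toLin'.injective (LinearMap.ext fun v => ?_)⟩
  · rwa [show (LinearMap.toMatrix' (g.toZModLinearMap p)).mulVec = g from funext hP]
  · simp only [toLin'_apply, ← mulVec_mulVec, hP, g1]
  · simp only [toLin'_apply, ← mulVec_mulVec, hP, g2]

theorem iso_of_sim {P : Matrix (Fin m) (Fin m) (ZMod p)} (hP : IsUnit P) (h1 : P * X = X' * P)
    (h2 : P * Y = Y' * P) : Nonempty (Heis K X Y ≃* Heis K X' Y') := by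
  obtain ⟨Q, e1, e2⟩ := isUnit_iff_exists.1 hP
  have m1 := congrArg (·.map (algebraMap (ZMod p) K)) e1
  have m2 := congrArg (·.map (algebraMap (ZMod p) K)) e2
  have m3 := congrArg (·.map (algebraMap (ZMod p) K)) h1
  have m4 := congrArg (·.map (algebraMap (ZMod p) K)) h2
  simp only [Matrix.map_mul, Matrix.map_one _ (map_zero _) (map_one _)] at m1 m2 m3 m4
  generalize P.map (algebraMap (ZMod p) K) = R at m1 m2 m3 m4
  generalize Q.map (algebraMap (ZMod p) K) = S at m1 m2
  have d : ∀ u w, (R *ᵥ u) ⬝ᵥ (Sᵀ *ᵥ w) = u ⬝ᵥ w := fun u w => by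
    rw [dot_tr, mulVec_mulVec, m2, one_mulVec]
  refine ⟨{ toFun := fun a => ⟨fun i => R *ᵥ a.u i, fun i => Sᵀ *ᵥ a.w i, a.z⟩
            invFun := fun a => ⟨fun i => S *ᵥ a.u i, fun i => Rᵀ *ᵥ a.w i, a.z⟩
            left_inv := fun a => Heis.ext (funext fun i => ?_) (funext fun i => ?_) rfl
            right_inv := fun a => Heis.ext (funext fun i => ?_) (funext fun i => ?_) rfl
            map_mul' := fun a b => Heis.ext (funext fun i => mulVec_add R (a.u i) (b.u i))
              (funext fun i => mulVec_add Sᵀ (a.w i) (b.w i)) ?_ }⟩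
  · simp only [mulVec_mulVec, m2, one_mulVec]
  · simp only [mulVec_mulVec, ← transpose_mul, m2, transpose_one, one_mulVec]
  · simp only [mulVec_mulVec, m1, one_mulVec]
  · simp only [mulVec_mulVec, ← transpose_mul, m1, transpose_one, one_mulVec]
  · simp only [mul_z, beta, d, mulVec_mulVec, ← m3, ← m4]
    simp only [← mulVec_mulVec, d]

end Pool.Agent.Work.MP_7393fc_al.Wild
end
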